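import Mathlib
import Pool.Agent.Y494.PN.Defs

/-!
# Project PN: the theta graph
-/

set_option autoImplicit false

namespace Pool.Agent.Y810.PN

open Polynomial Pool.Agent.Results.MP_daa8b9_co.PenroseMinusOne Pool.Agent.Y494.PN
open Pool.Agent.H487R2.PenroseDP

theorem theta_ex : ∃ G : PlaneCubicGraph (Fin 3), G.rot = rotTheta := by
  refine ⟨{ rot := rotTheta, cubic := ?_, connected := ?_, planar := ?_ }, rfl⟩
  · decide +kernel
  · have h0 : ∀ x : Fin 3 × Bool,
        (((if x.2 then Results.MP_daa8b9_co.PenroseMinusOne.flip else 1) *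
          rotTheta ^ x.1.val : Equiv.Perm (Fin 3 × Bool))) (0, false) = x := by decide +kernel
    have h : ∀ x : Fin 3 × Bool, 
        ∃ g ∈ Subgroup.closure {rotTheta, Results.MP_daa8b9_co.PenroseMinusOne.flip}, g (0, false) = x := by
      intro x
      refine ⟨_, ?_, h0 x⟩
      refine Subgroup.mul_mem _ ?_ (Subgroup.pow_mem _ (Subgroup.subset_closure (by simp)) _)
      split_ifs
      · exact Subgroup.subset_closure (by simp)
      · exact Subgroup.one_mem _
    intro x y
    obtain ⟨g, hg, rfl⟩ := h x
    obtain ⟨g', hg', rfl⟩ := h y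
    exact ⟨g' * g⁻¹, Subgroup.mul_mem _ hg' (Subgroup.inv_mem _ hg), by simp⟩
  · have h1 : Nat.card (Quotient (Equiv.Perm.SameCycle.setoid rotTheta)) = 2 := by
      refine card_cycles rotTheta (fun x => if x.2 then 1 else 0)
        (fun i => (0, i == 1)) (fun x => if x.2 then (2 * x.1.val) % 3 else x.1.val) ?_ ?_ ?_ <;>
        decide +kernel
    have h2 : Nat.card (Quotient 
        (Equiv.Perm.SameCycle.setoid (rotTheta * Results.MP_daa8b9_co.PenroseMinusOne.flip))) = 3 := by
      refine card_cycles (rotTheta * Results.MP_daa8b9_co.PenroseMinusOne.flip) (fun x => if x.2 then x.1 else x.1 + 2)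
        (fun i => (i, true)) (fun x => if x.2 then 0 else 1) ?_ ?_ ?_ <;>
        decide +kernel
    rw [h1, h2, Nat.card_eq_fintype_card, Fintype.card_fin]

/-- the number of a half-edge -/
def ix3 (h : Fin 3 × Bool) : ℕ := 2 * h.1.val + (if h.2 then 1 else 0)

/-- the gates -/
def Γ3 (e : Fin 3) : Gate (Fin 3 × Bool) :=
  ([((e, false), rotTheta.symm (e, true)), ((e, true), rotTheta.symm (e, false))],
   [((e, false), (e, true)), (rotTheta.symm (e, false), rotTheta.symm (e, true))])

theorem ix3_inj : Function.Injective ix3 := by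
  unfold Function.Injective
  decide +kernel

theorem joined3 (G : PlaneCubicGraph (Fin 3)) (hG : G.rot = rotTheta) (s : Fin 3 → Bool)
    (t u : Fin 3 × Bool) :
    Relation.EqvGen (G.Joined s) t u ↔
      mergeAll ix3 (sel Γ3 s) t = mergeAll ix3 (sel Γ3 s) u := by
  rw [mergeAll_eq_iff]
  constructor
  · refine eqvGen_mono' ?_
    rintro a b ⟨⟨e, c⟩, h⟩
    rw [hG] at h
    have hmem : ∀ p, p ∈ (if s e then (Γ3 e).2 else (Γ3 e).1) →
        Relation.EqvGen (fun x y => ix3 x = ix3 y ∨ (x, y) ∈ sel Γ3 s) p.1 p.2 := by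
      intro p hp
      exact Relation.EqvGen.rel _ _ (Or.inr ((mem_sel Γ3 s p).2 ⟨e, hp⟩))
    cases hs : s e with
    | true =>
      simp only [hs, if_true] at h hmem
      cases c with
      | false =>
        rcases h with ⟨rfl, rfl⟩ | ⟨rfl, rfl⟩
        · exact hmem ((e, false), (e, true)) (by simp [Γ3])
        · exact hmem (rotTheta.symm (e, false), rotTheta.symm (e, true)) (by simp [Γ3])
      | true =>
        rcases h with ⟨rfl, rfl⟩ | ⟨rfl, rfl⟩
        · exact (hmem ((e, false), (e, true)) (by simp [Γ3])).symm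
        · exact (hmem (rotTheta.symm (e, false), rotTheta.symm (e, true)) (by simp [Γ3])).symm
    | false =>
      simp only [hs, Bool.false_eq_true, if_false] at h hmem
      cases c with
      | false =>
        obtain ⟨rfl, rfl⟩ := h
        exact hmem ((e, false), rotTheta.symm (e, true)) (by simp [Γ3])
      | true =>
        obtain ⟨rfl, rfl⟩ := h
        exact hmem ((e, true), rotTheta.symm (e, false)) (by simp [Γ3])
  · refine eqvGen_mono' ?_
    rintro a b (h | h)
    · rw [ix3_inj h]; exact Relation.EqvGen.refl _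
    · rw [mem_sel] at h
      obtain ⟨e, he⟩ := h
      refine Relation.EqvGen.rel _ _ ?_
      cases hs : s e with
      | true =>
        simp only [hs, if_true, Γ3, List.mem_cons, List.not_mem_nil, or_false, Prod.mk.injEq] at he
        rcases he with ⟨rfl, rfl⟩ | ⟨rfl, rfl⟩
        · exact ⟨(e, false), by rw [if_pos hs]; exact Or.inl ⟨rfl, rfl⟩⟩
        · exact ⟨(e, false), by rw [if_pos hs, hG]; exact Or.inr ⟨rfl, rfl⟩⟩
      | false =>
        simp only [hs, Bool.false_eq_true, if_false, Γ3, List.mem_cons, List.not_mem_nil,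
          or_false, Prod.mk.injEq] at he
        rcases he with ⟨rfl, rfl⟩ | ⟨rfl, rfl⟩
        · exact ⟨(e, false), by rw [if_neg (by rw [hs]; simp), hG]; exact ⟨rfl, rfl⟩⟩
        · exact ⟨(e, true), by rw [if_neg (by rw [hs]; simp), hG]; exact ⟨rfl, rfl⟩⟩

theorem curves3 (G : PlaneCubicGraph (Fin 3)) (hG : G.rot = rotTheta) (s : Fin 3 → Bool) :
    G.curves s = (Finset.univ.image (mergeAll ix3 (sel Γ3 s))).card := by
  unfold PlaneCubicGraph.curves
  set f := mergeAll ix3 (sel Γ3 s) with hf
  have e : Quotient (Relation.EqvGen.setoid (G.Joined s)) ≃ Set.range f := by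
    refine Equiv.ofBijective (Quotient.lift (fun t => (⟨f t, t, rfl⟩ : Set.range f))
      (fun t u h => Subtype.ext ((joined3 G hG s t u).1 h))) ⟨?_, ?_⟩
    · intro a b
      induction a using Quotient.ind
      induction b using Quotient.ind
      intro h
      exact Quotient.sound ((joined3 G hG s _ _).2 (Subtype.ext_iff.1 h))
    · rintro ⟨_, t, rfl⟩
      exact ⟨Quotient.mk _ t, rfl⟩
  rw [Nat.card_congr e, card_range f]

theorem sum3 : ∑ s : Fin 3 → Bool, (-1 : ℤ) ^ (Finset.univ.filter fun e => s e = true).card *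
    (-1) ^ (Finset.univ.image (mergeAll ix3 (sel Γ3 s))).card = -6 := by
  decide +kernel

theorem theta_val (G : PlaneCubicGraph (Fin 3)) (hG : G.rot = rotTheta) :
    Loopless G ∧ G.numColourings = 6 ∧ G.penrose.eval (-1) = -6 := by
  refine ⟨?_, ?_, ?_⟩
  · unfold Loopless
    rw [hG]
    decide +kernel
  · have hcyc : ∀ i j : Fin 3, rotTheta.SameCycle (i, false) (j, false) := by
      have h0 : ∀ i j : Fin 3, (rotTheta ^ ((j - i).val)) (i, false) = (j, false) := by
        decide +kernel
      intro i j
      exact ⟨((j - i).val : ℤ), by rw [zpow_natCast]; exact h0 i j⟩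
    have key : ∀ c : Fin 3 → Fin 3,
        (∀ h k : Fin 3 × Bool, G.rot.SameCycle h k → h.1 ≠ k.1 → c h.1 ≠ c k.1) ↔
          Function.Injective c := by
      intro c
      rw [hG]
      constructor
      · intro H i j hij
        by_contra hne
        exact H (i, false) (j, false) (hcyc i j) hne hij
      · intro H h k _ hne hc
        exact hne (H hc)
    unfold PlaneCubicGraph.numColourings
    rw [Nat.card_congr (Equiv.subtypeEquivRight key), Nat.card_eq_fintype_card]
    decide +kernel
  · unfold PlaneCubicGraph.penrose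
    rw [eval_finsetSum, ← sum3]
    refine Finset.sum_congr rfl fun s _ => ?_
    rw [eval_mul, eval_pow, eval_neg, eval_one, eval_pow, eval_X, curves3 G hG]

end Pool.Agent.Y810.PN
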